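import Mathlib
import Pool.Agent.N957.SQ.Lin3

/-!
# Arithmetic progressions of twins, and systems of linear forms in several variables, in the sieved
sequential random models

The integers are decided one after the other; the multiples of the primes of a finite set `Q` are never
chosen and the conditional probability of choosing an integer `n + 1` which is not such a multiple,
given the decisions up to `n`, is asymptotic to `∏_{p ∈ Q} (1 - 1 / p)⁻¹ / log n`, almost surely.  No
independence and no rate of convergence are assumed.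

In every such model, almost surely: for every `l` the number of `a, b ∈ [1, n]` with `a + k b` and `a + k b + 2`
chosen for all `k < l` is asymptotic to `C_l n ^ 2 / log ^ {2 l} n` with a positive constant `C_l`.  More generally,
for all finite systems of pairwise different linear forms in any number of variables, with nonnegative coefficients
and no form constant, the number of points of the box `[1, n] ^ r` at which all the forms are chosen has the expected
asymptotic, with the product of the local densities at the primes of `Q`.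
-/

set_option autoImplicit false

open MeasureTheory Filter Set ProbabilityTheory
open scoped Topology

namespace Pool.Agent.Results.MP_a1f59e_nt.LinearSystemsModels

variable {Ω : Type}

/-- `A n` is the event that `n` is chosen; adapted to `ℱ`; multiples of the primes in `Q` are not
chosen; the conditional probability of `A (n + 1)` given `ℱ n`, times `log n`, tends almost surely to
`∏_{p ∈ Q} (1 - 1 / p)⁻¹` along the `n` such that no `p ∈ Q` divides `n + 1` -/
def SievedModel [m : MeasurableSpace Ω] (μ : Measure Ω) (ℱ : Filtration ℕ m) (A : ℕ → Set Ω)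
    (Q : Finset ℕ) : Prop :=
  (∀ n, MeasurableSet[ℱ n] (A n)) ∧ (∀ n, (∃ p ∈ Q, p ∣ n) → A n = ∅) ∧
  ∀ᵐ ω ∂μ, Tendsto (fun n : ℕ => (μ[(A (n + 1)).indicator (fun _ => (1 : ℝ)) | ℱ n]) ω * Real.log n)
    (atTop ⊓ 𝓟 {n : ℕ | ∀ p ∈ Q, ¬ p ∣ n + 1}) (𝓝 (∏ p ∈ Q, (1 - 1 / (p : ℝ))⁻¹))

/-- The independent sieved model: independent events, no multiple of a `p ∈ Q` is chosen, all other large `n` are
chosen with probability `∏_{p ∈ Q} (1 - 1 / p)⁻¹ / log n`. -/
def IndependentModel [MeasurableSpace Ω] (μ : Measure Ω) (A : ℕ → Set Ω) (Q : Finset ℕ) : Prop :=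
  (∀ n, MeasurableSet (A n)) ∧ iIndepSet A μ ∧ (∀ n, (∃ p ∈ Q, p ∣ n) → A n = ∅) ∧
  ∀ᶠ n : ℕ in atTop, (∀ p ∈ Q, ¬ p ∣ n) → μ (A n) = ENNReal.ofReal ((∏ p ∈ Q, (1 - 1 / (p : ℝ))⁻¹) / Real.log n)

open Classical in
/-- The random sieve of Hawkins: `2` is chosen, and given the decisions up to `n ≥ 2` the number
`n + 1` is chosen with probability `∏ (1 - 1 / h)`, the product over the chosen `2 ≤ h ≤ n`. -/
def HawkinsSieve [m : MeasurableSpace Ω] (μ : Measure Ω) (ℱ : Filtration ℕ m) (A : ℕ → Set Ω) : Prop :=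
  (∀ n, MeasurableSet[ℱ n] (A n)) ∧ A 2 = univ ∧
  ∀ n, 2 ≤ n → μ[(A (n + 1)).indicator (fun _ => (1 : ℝ)) | ℱ n] =ᵐ[μ]
    fun ω => ∏ h ∈ Finset.Icc 2 n, if ω ∈ A h then 1 - 1 / (h : ℝ) else 1

/-- The value at `v` of the linear form in `r` variables with the coefficients `f.1` and the constant `f.2`. -/
def value {r : ℕ} (f : (Fin r → ℕ) × ℕ) (v : Fin r → ℕ) : ℕ := ∑ i, f.1 i * v i + f.2

/-- The number of points `v` of the box `[1, n] ^ r` at which all forms of the system `P` have values in `S`. -/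
noncomputable def count {r : ℕ} (S : Set ℕ) (P : Finset ((Fin r → ℕ) × ℕ)) (n : ℕ) : ℕ :=
  {v : Fin r → ℕ | (∀ i, 1 ≤ v i ∧ v i ≤ n) ∧ ∀ f ∈ P, value f v ∈ S}.ncard

/-- The number of residue vectors mod `p` at which no form of the system is divisible by `p`. -/
noncomputable def units {r : ℕ} (P : Finset ((Fin r → ℕ) × ℕ)) (p : ℕ) : ℕ :=
  {v : Fin r → ℕ | (∀ i, v i < p) ∧ ∀ f ∈ P, ¬ p ∣ value f v}.ncard

/-- The product over the primes `p ∈ Q` of the local densities of the system. -/
noncomputable def const {r : ℕ} (Q : Finset ℕ) (P : Finset ((Fin r → ℕ) × ℕ)) : ℝ :=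
  ∏ p ∈ Q, ((units P p : ℝ) / (p : ℝ) ^ r) / (1 - 1 / (p : ℝ)) ^ P.card

/-- The number of pairs `(a, b)` with `1 ≤ a, b ≤ n` such that `a + k b` and `a + k b + 2` are in `S` for
all `k < l`. -/
noncomputable def progressions (S : Set ℕ) (l n : ℕ) : ℕ :=
  {x : ℕ × ℕ | (1 ≤ x.1 ∧ x.1 ≤ n) ∧ (1 ≤ x.2 ∧ x.2 ≤ n) ∧
    ∀ k < l, x.1 + k * x.2 ∈ S ∧ x.1 + k * x.2 + 2 ∈ S}.ncard

/-- The number of pairs `(a, b)` mod `p` such that `p` divides no `a + k b` and no `a + k b + 2` with `k < l`. -/
noncomputable def nu (l p : ℕ) : ℕ :=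
  {x : ℕ × ℕ | x.1 < p ∧ x.2 < p ∧ ∀ k < l, ¬ p ∣ x.1 + k * x.2 ∧ ¬ p ∣ x.1 + k * x.2 + 2}.ncard

/-- The constant of the progressions of `l` twins. -/
noncomputable def twinConst (Q : Finset ℕ) (l : ℕ) : ℝ :=
  ∏ p ∈ Q, ((nu l p : ℝ) / (p : ℝ) ^ 2) / (1 - 1 / (p : ℝ)) ^ (2 * l)

open Pool.Agent.N957.SQ.Ln

/-- the system `a + k b`, `a + k b + 2`, with `k < l` -/
def twins (l : ℕ) : Finset ((Fin 2 → ℕ) × ℕ) :=
  (Finset.range l ×ˢ {0, 2}).image fun x => (![1, x.1], x.2)

lemma twins_card (l : ℕ) : (twins l).card = 2 * l := by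
  unfold twins
  rw [Finset.card_image_of_injective, Finset.card_product, Finset.card_range]
  · simp [mul_comm]
  · rintro ⟨k, c⟩ ⟨k', c'⟩ h
    have h1 := (Prod.ext_iff.1 h).1
    have h2 := (Prod.ext_iff.1 h).2
    have h3 := congrFun h1 1
    simp at h2 h3
    exact Prod.ext h3 h2

lemma mem_twins {l : ℕ} {p : (Fin 2 → ℕ) × ℕ → Prop} :
    (∀ f ∈ twins l, p f) ↔ ∀ k < l, p (![1, k], 0) ∧ p (![1, k], 2) := by
  unfold twins
  rw [Finset.forall_mem_image]
  constructor
  · intro h k hk
    exact ⟨h (x := (k, 0)) (by simp [hk]), h (x := (k, 2)) (by simp [hk])⟩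
  · rintro h ⟨k, c⟩ hx
    rw [Finset.mem_product, Finset.mem_range] at hx
    obtain ⟨h1, h2⟩ := hx
    rw [Finset.mem_insert, Finset.mem_singleton] at h2
    simp only at h1 h2
    rcases h2 with rfl | rfl
    · exact (h k h1).1
    · exact (h k h1).2

lemma value_twin (k c : ℕ) (v : Fin 2 → ℕ) : value (![1, k], c) v = v 0 + k * v 1 + c := by
  unfold value
  simp [Fin.sum_univ_two]

lemma value_eq {r : ℕ} (f : (Fin r → ℕ) × ℕ) (v : Fin r → ℕ) : value f v = ev f v := rfl

lemma count_eq {r : ℕ} (A : ℕ → Set Ω) (ω : Ω) (P : Finset ((Fin r → ℕ) × ℕ)) (n : ℕ) :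
    count {q | ω ∈ A q} P n = (chs A P n ω).card := by
  classical
  unfold count
  rw [← Set.ncard_coe_finset]
  congr 1
  ext v
  unfold chs
  simp only [mem_ofPred_eq, Finset.coe_filter, mem_box, value_eq]

lemma units_eq {r : ℕ} (P : Finset ((Fin r → ℕ) × ℕ)) {p : ℕ} (hp : p.Prime) : units P p = (good P p).card := by
  classical
  unfold units
  rw [← Set.ncard_coe_finset]
  congr 1
  ext v
  unfold good
  simp only [mem_ofPred_eq, Finset.coe_filter, Fintype.mem_piFinset, Finset.mem_range, value_eq]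
  refine and_congr_right fun _ => forall₂_congr fun f _ => ?_
  rw [Nat.coprime_comm]
  exact (Nat.Prime.coprime_iff_not_dvd hp).symm

lemma const_eq {r : ℕ} (Q : Finset ℕ) (hQ : ∀ p ∈ Q, p.Prime) (P : Finset ((Fin r → ℕ) × ℕ)) :
    const Q P = cst Q P := by
  unfold const cst
  refine Finset.prod_congr rfl fun p hp => ?_
  rw [units_eq P (hQ p hp)]

lemma progressions_eq (S : Set ℕ) (l n : ℕ) : count S (twins l) n = progressions S l n := by
  unfold count progressions
  rw [← Set.ncard_image_of_injective _ (finTwoArrowEquiv ℕ).injective]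
  congr 1
  ext x
  rw [Set.mem_image_equiv]
  simp only [mem_ofPred_eq, mem_twins, value_twin, add_zero]
  simp [finTwoArrowEquiv, Fin.forall_fin_two, and_assoc]

lemma nu_eq (l p : ℕ) : units (twins l) p = nu l p := by
  unfold units nu
  rw [← Set.ncard_image_of_injective _ (finTwoArrowEquiv ℕ).injective]
  congr 1
  ext x
  rw [Set.mem_image_equiv]
  simp only [mem_ofPred_eq, mem_twins, value_twin, add_zero]
  simp [finTwoArrowEquiv, Fin.forall_fin_two, and_assoc]

lemma twinConst_eq (Q : Finset ℕ) (l : ℕ) : const Q (twins l) = twinConst Q l := by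
  unfold const twinConst
  refine Finset.prod_congr rfl fun p _ => ?_
  rw [nu_eq, twins_card]

end Pool.Agent.Results.MP_a1f59e_nt.LinearSystemsModels

open Pool.Agent.Results.MP_a1f59e_nt.LinearSystemsModels

/-- The independent sieved model is a sieved model for some filtration, and the random sieve of Hawkins is one with
`Q = ∅`.  In every sieved model, almost surely: (1) for all `l ≥ 1` the number of `a, b ∈ [1, n]` with `a + k b` and
`a + k b + 2` chosen for all `k < l` is asymptotic to `C_l n ^ 2 / log ^ (2 l) n`, with `C_l = twinConst Q l > 0`;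
(2) for all `r` and all nonempty finite systems `P` of linear forms in `r` variables with nonnegative integer
coefficients, no form of the system being constant, the number of the points of `[1, n] ^ r` at which all forms of `P`
are chosen, times `log ^ |P| n / n ^ r`, tends to `const Q P`, which is positive if and only if for every `p ∈ Q`
there is a point at which `p` divides no form of `P`. -/
theorem Pool.Agent.Results.MP_a1f59e_nt.LinearSystemsModels.result
    {Ω : Type} [m : MeasurableSpace Ω] (μ : Measure Ω) [IsProbabilityMeasure μ] (A : ℕ → Set Ω)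
    (Q : Finset ℕ) (hQ : ∀ p ∈ Q, p.Prime) :
    (IndependentModel μ A Q → ∃ ℱ : Filtration ℕ m, SievedModel μ ℱ A Q) ∧
    ∀ ℱ : Filtration ℕ m,
    (HawkinsSieve μ ℱ A → SievedModel μ ℱ A ∅) ∧
    (SievedModel μ ℱ A Q → ∀ᵐ ω ∂μ,
      (∀ l : ℕ, 1 ≤ l → 0 < twinConst Q l ∧
        Tendsto (fun n : ℕ => (progressions {q | ω ∈ A q} l n : ℝ) * Real.log n ^ (2 * l) / (n : ℝ) ^ 2) atTop
          (𝓝 (twinConst Q l))) ∧
      ∀ (r : ℕ) (P : Finset ((Fin r → ℕ) × ℕ)), P.Nonempty → (∀ f ∈ P, f.1 ≠ 0) →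
        (0 < const Q P ↔ ∀ p ∈ Q, ∃ v : Fin r → ℕ, ∀ f ∈ P, ¬ p ∣ value f v) ∧
        Tendsto (fun n : ℕ => (count {q | ω ∈ A q} P n : ℝ) * Real.log n ^ P.card / (n : ℝ) ^ r) atTop
          (𝓝 (const Q P))) := by
  classical
  refine ⟨?_, fun ℱ => ⟨?_, ?_⟩⟩
  · rintro ⟨hA, hi, hz, hp⟩
    exact ⟨Pool.Agent.N740.HK.gen hA, Pool.Agent.N740.HK.gen_meas hA, hz,
      Pool.Agent.N957.SQ.Fin.indep_dens hA hi Q hQ hp⟩
  · rintro ⟨h1, h2, h3⟩
    have hs : Pool.Agent.N740.HK.HS μ ℱ A := ⟨h1, h2, fun n hn => by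
      filter_upwards [h3 n hn] with ω hω
      rw [← Pool.Agent.N957.SQ.Fin.prod_inv]
      exact hω⟩
    refine ⟨h1, fun n hn => ?_, ?_⟩
    · obtain ⟨p, hp, _⟩ := hn
      exact absurd hp (Finset.notMem_empty p)
    · filter_upwards [Pool.Agent.N740.HK.hawk_dens hs] with ω hω
      rw [Finset.prod_empty]
      exact hω.mono_left inf_le_left
  · rintro ⟨hA, hcop, hd⟩
    filter_upwards [Pool.Agent.N957.SQ.Ln.law_all (μ := μ) hA Q hQ hcop hd] with ω g1
    have hgen : ∀ (r : ℕ) (P : Finset ((Fin r → ℕ) × ℕ)), P.Nonempty → (∀ f ∈ P, f.1 ≠ 0) →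
        (0 < const Q P ↔ ∀ p ∈ Q, ∃ v : Fin r → ℕ, ∀ f ∈ P, ¬ p ∣ value f v) ∧
        Tendsto (fun n : ℕ => (count {q | ω ∈ A q} P n : ℝ) * Real.log n ^ P.card / (n : ℝ) ^ r) atTop
          (𝓝 (const Q P)) := by
      intro r P h0 h1
      rw [const_eq Q hQ]
      refine ⟨Pool.Agent.N957.SQ.Ln.cst_pos Q hQ P, ?_⟩
      simp_rw [count_eq]
      exact g1 r P h0 h1
    refine ⟨fun l hl => ?_, hgen⟩
    have h0 : (twins l).Nonempty := by
      rw [← Finset.card_pos, twins_card]
      omega
    have h1 : ∀ f ∈ twins l, f.1 ≠ 0 := by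
      rw [mem_twins]
      intro k _
      constructor
      · intro h
        have := congrFun h 0
        simp at this
      · intro h
        have := congrFun h 0
        simp at this
    obtain ⟨g2, g3⟩ := hgen 2 (twins l) h0 h1
    rw [twinConst_eq] at g2 g3
    simp_rw [progressions_eq] at g3
    rw [twins_card] at g3
    refine ⟨g2.2 fun p hp => ⟨![p - 1, 0], ?_⟩, g3⟩
    rw [mem_twins]
    intro k _
    rw [value_twin, value_twin]
    have hp2 := (hQ p hp).two_le
    simp only [Matrix.cons_val_zero, Matrix.cons_val_one, mul_zero, add_zero]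
    constructor
    · intro h
      have := Nat.le_of_dvd (by omega) h
      omega
    · intro h
      have h3 : p - 1 + 2 = p + 1 := by omega
      rw [h3] at h
      have h4 : p ∣ 1 := (Nat.dvd_add_right (dvd_refl p)).1 h
      have := Nat.le_of_dvd one_pos h4
      omega
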